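import Pool.Agent.Q78.UG.KnotFin2

/-!
# The length of a random lattice polygon of given knot type in a random or finite domain
-/

set_option autoImplicit false

namespace Pool.Agent.Results.MP_aea6d5_co.ConfinedLength

open Finset KN MeasureTheory
open scoped Classical

/-- Mean number of closed self-avoiding words from `0` in `ℤ³` (polygons with a starting point `0`
and an orientation) with `n` steps and knot type in `Q`, all of whose vertices lie in the random
set `D`. -/
noncomputable def Z {Ω : Type} [MeasurableSpace Ω] (ν : Measure Ω) (D : Ω → Set Z3)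
    (Q : List Dir → Prop) (n : ℕ) : ℝ :=
  ∫ ω, (((K Q n).filter (fun w => ∀ p ∈ path w, p ∈ D ω)).card : ℝ) ∂ν

/-- The probability that the random polygon has `n` edges, knot type in `Q` and lies in `D`: the
weight of the length is `q`, the total weight is `T`. -/
noncomputable def P {Ω : Type} [MeasurableSpace Ω] (ν : Measure Ω) (q : ℕ → ℝ) (T : ℝ)
    (D : Ω → Set Z3) (Q : List Dir → Prop) (n : ℕ) : ℝ := Z ν D Q n * q n / T

/-- The number of polygons (without starting point and orientation) with `n` edges and knot type in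
`Q` all of whose vertices are in the finite set `F`: the sum counts every polygon `2 n` times. -/
noncomputable def Np (Q : List Dir → Prop) (F : Finset Z3) (n : ℕ) : ℝ :=
  (∑ v ∈ F, (((K Q n).filter (fun w => ∀ p ∈ path w, p + v ∈ F)).card : ℝ)) / (2 * n)

/-- Let `Q` be a nonempty class of knot types (for instance one knot type) with growth rate `gr Q`.

(A) A random polygon through the origin, of class `Q`, in a random set `D` (any law), where the
length `n` has the weight `q n` (`q n = x ^ n`, `x ≤ κ / gr Q`, or any other approximately log-convex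
weight). For every `m` which is at least `C (1 + log (1 / T))`: the length `L` has
`P(L = m) ≤ C / √m`; the total variation distance between the joint laws of (length, knot type,
events that the polygon lies in smaller random sets) of `L + 2` and `L` on `L ≥ m` is at most
`C / √m`; if `P(L = m) ≥ exp (-δ m)` then the ratio `P(L = m + 2) / P(L = m)` and the conditional law
of knot type and containment given the length change by at most
`C √((1 + log (1 / P(L = m))) / m)` from `m` to `m + 2`.

(B) The same for a random polygon of class `Q` in a finite set `F`, chosen with a probability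
proportional to `x ^ length`. -/
theorem result (Q : List Dir → Prop) (hQ : KClass Q) (hne : ∃ w, SAP w ∧ Q w) :
    (∀ c : ℝ, 0 ≤ c → ∃ C κ δ : ℝ, 0 < C ∧ 1 < κ ∧ 0 < δ ∧
    ∀ (Ω : Type) [MeasurableSpace Ω] (ν : Measure Ω) [IsProbabilityMeasure ν] (D : Ω → Set Z3),
      (∀ p, MeasurableSet {ω | p ∈ D ω}) →
      ∀ q : ℕ → ℝ, (∀ n, 0 ≤ q n) → (∀ n, q n ≤ (κ / gr Q) ^ n) →
      (∀ n, 1 ≤ n → q (n + 2) ^ 2 ≤ q n * q (n + 4) * (1 + c / n)) →
      ∀ T : ℝ, 0 < T → HasSum (fun n => Z ν D Q n * q n) T →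
      ∀ m : ℕ, C * (1 + max 0 (Real.log (1 / T))) ≤ m →
        P ν q T D Q m ≤ C / √(m : ℝ) ∧
        (∀ (Q' : ℕ → List Dir → Prop) (D' : ℕ → Ω → Set Z3),
          (∀ i, KClass (Q' i)) → (∀ i w, Q' i w → Q w) →
          (∀ i p, MeasurableSet {ω | p ∈ D' i ω}) → (∀ i ω, D' i ω ⊆ D ω) →
          ∀ k, ∑ i ∈ range k, |P ν q T (D' i) (Q' i) (m + i + 2) -
            P ν q T (D' i) (Q' i) (m + i)| ≤ C / √(m : ℝ)) ∧
        (Real.exp (-δ * m) ≤ P ν q T D Q m →
          |P ν q T D Q (m + 2) / P ν q T D Q m - 1| ≤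
            C * √((1 + Real.log (1 / P ν q T D Q m)) / m) ∧
          ∀ (Q' : List Dir → Prop) (D' : Ω → Set Z3), KClass Q' → (∀ w, Q' w → Q w) →
            (∀ p, MeasurableSet {ω | p ∈ D' ω}) → (∀ ω, D' ω ⊆ D ω) →
            |Z ν D' Q' (m + 2) / Z ν D Q (m + 2) - Z ν D' Q' m / Z ν D Q m| ≤
              C * √((1 + Real.log (1 / P ν q T D Q m)) / m))) ∧
    (∃ C κ δ : ℝ, 0 < C ∧ 1 < κ ∧ 0 < δ ∧
    ∀ (F : Finset Z3) (x T : ℝ), 0 < x → x ≤ κ / gr Q → 0 < T →
      HasSum (fun n => Np Q F n * x ^ n) T →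
      ∀ m : ℕ, C * (1 + max 0 (Real.log (F.card / T))) ≤ m →
        Np Q F m * x ^ m / T ≤ C / √(m : ℝ) ∧
        (∀ (Q' : ℕ → List Dir → Prop) (F' : ℕ → Finset Z3),
          (∀ i, KClass (Q' i)) → (∀ i w, Q' i w → Q w) → (∀ i, F' i ⊆ F) →
          ∀ k, ∑ i ∈ range k, |Np (Q' i) (F' i) (m + i + 2) * x ^ (m + i + 2) / T -
            Np (Q' i) (F' i) (m + i) * x ^ (m + i) / T| ≤ C / √(m : ℝ)) ∧
        (Real.exp (-δ * m) ≤ Np Q F m * x ^ m / T →
          |Np Q F (m + 2) * x ^ (m + 2) / (Np Q F m * x ^ m) - 1| ≤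
            C * √((1 + Real.log (1 / (Np Q F m * x ^ m / T))) / m) ∧
          ∀ (Q' : List Dir → Prop) (F' : Finset Z3), KClass Q' → (∀ w, Q' w → Q w) → F' ⊆ F →
            |Np Q' F' (m + 2) / Np Q F (m + 2) - Np Q' F' m / Np Q F m| ≤
              C * √((1 + Real.log (1 / (Np Q F m * x ^ m / T))) / m))) :=
  ⟨fun c hc => Q78.UG.Kn.main Q hQ hne c hc, Q78.UG.Kn.finite Q hQ hne⟩

end Pool.Agent.Results.MP_aea6d5_co.ConfinedLength
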