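import Pool.Agent.Q123.NS.Fin

/-!
# Polygons of the classes of knots closed under connected sums have many summands
-/

set_option autoImplicit false

namespace Pool.Agent.Results.MP_aea6d5_co.ManySummands

open Filter Topology KN KN.KQ Q123.NS
open scoped Classical

/-- `ct R w` is the number of contacts of the polygon `w` with empty balls: the number of its
vertices on the boundary of an open ball which has an integer centre and a radius in `(R, R + 1]`
and contains no vertex of `w`. `HasSummands k M w`: the polygon `w` is a connected sum of a polygon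
and `M` polygons of the type `k`.

1. Every polygon with `n` edges has at least `n ^ (2 / 3) / (2 R + 3) ^ 3` contacts; their number is
   at least the size of each coordinate projection divided by `(2 R + 3) ^ 3`.
2. For every knot `k` there is a radius `R` with the following properties. Let `Q` be a class of
   knot types which is closed under connected sums and contains `k`.
   * For some `δ > 0`, all but a fraction `exp (- δ n ^ (2 / 3))` of the polygons of `Q` with `n`
     edges have at least `δ ct` summands `k`, where `ct` is the number of contacts; and at most a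
     fraction `exp (- δ s)` has `ct ≥ s` and less than `δ s` summands.
   * Let `Q'` be a subclass whose polygons have less than `M` summands `k` (for example one knot
     type, see 3). For some `δ > 0` and all large `n`, the number of polygons of `Q'` with `n` edges
     and at least `s` contacts is at most `exp (- δ s)` times the number of polygons of `Q`; the
     number of all polygons of `Q'` is at most `exp (- δ n ^ (2 / 3))` times the number for `Q`, and
     at most `exp (- δ n ^ (2 / 3)) g ^ n` where `g` is the growth rate of `Q`; those with at least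
     `ε n` contacts are at most `(θ g) ^ n` for some `θ < 1`; and if the counts of `Q'` have the
     asymptotic form with a positive constant, then its growth rate is smaller than `g`.
   * If `k` has a non-cyclic finite image, then for every polygon `w₀` there are `δ > 0` and `m` such
     that, for all large `n` and all `1 ≤ N ≤ δ n ^ (2 / 3)`, the number of polygons with `n + m N`
     edges which are connected sums of a polygon of the type of `w₀` and `N` polygons `k` is at
     least `(δ n ^ (2 / 3) / N) ^ N` times the number of polygons of the type of `w₀` with `n` edges.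
3. If `k` has a non-cyclic finite image (for example the trefoil), then the polygons of a knot type
   have a bounded number of summands `k`. -/
theorem result :
    (∀ (R : ℕ) (w : List Dir), 1 ≤ R → SAP w →
      (w.length : ℝ) ^ (2 / 3 : ℝ) ≤ (2 * R + 3 : ℝ) ^ 3 * ct R w ∧
      ((path w).toFinset.image (fun p => (p.2.1, p.2.2))).card ≤ (2 * R + 3) ^ 3 * ct R w ∧
      ((path w).toFinset.image (fun p => (p.1, p.2.2))).card ≤ (2 * R + 3) ^ 3 * ct R w ∧
      ((path w).toFinset.image (fun p => (p.1, p.2.1))).card ≤ (2 * R + 3) ^ 3 * ct R w) ∧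
    (∀ k : List V, (∃ w, SAP w ∧ Same (vl w) k) → ∃ R : ℕ, 1 ≤ R ∧
      (∀ Q : List Dir → Prop, KClass Q → CSum Q → (∃ w, SAP w ∧ Q w ∧ Same (vl w) k) →
        (∃ δ : ℝ, 0 < δ ∧ ∀ᶠ n : ℕ in atTop,
          (((K Q n).filter (fun w => ¬ HasSummands k ⌈δ * ct R w⌉₊ w)).card : ℝ) ≤
            Real.exp (-(δ * (n : ℝ) ^ (2 / 3 : ℝ))) * a Q n ∧
          ∀ s : ℕ, (((K Q n).filter (fun w => s ≤ ct R w ∧
            ¬ HasSummands k ⌈δ * s⌉₊ w)).card : ℝ) ≤ Real.exp (-(δ * s)) * a Q n) ∧
        (∀ (Q' : List Dir → Prop) (M : ℕ),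
          (∀ w, SAP w → Q' w → Q w ∧ ¬ HasSummands k M w) →
          (∃ δ : ℝ, 0 < δ ∧ ∀ᶠ n : ℕ in atTop,
            (∀ s : ℕ, (((K Q' n).filter (fun w => s ≤ ct R w)).card : ℝ) ≤
              Real.exp (-(δ * s)) * a Q n) ∧
            (a Q' n : ℝ) ≤ Real.exp (-(δ * (n : ℝ) ^ (2 / 3 : ℝ))) * a Q n ∧
            (a Q' n : ℝ) ≤ Real.exp (-(δ * (n : ℝ) ^ (2 / 3 : ℝ))) * gr Q ^ n) ∧
          (∀ ε : ℝ, 0 < ε → ∃ θ : ℝ, 0 < θ ∧ θ < 1 ∧ ∀ᶠ n : ℕ in atTop,
            (((K Q' n).filter (fun w => ε * n ≤ ct R w)).card : ℝ) ≤ (θ * gr Q) ^ n) ∧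
          ∀ A α g : ℝ, 0 < A → 0 < g → Form Q' A α g → g < gr Q)) ∧
      (FNAG k → ∀ w₀ : List Dir, SAP w₀ → ∃ (δ : ℝ) (m : ℕ), 0 < δ ∧
        ∀ᶠ n : ℕ in atTop, ∀ N : ℕ, 1 ≤ N → (N : ℝ) ≤ δ * (n : ℝ) ^ (2 / 3 : ℝ) →
          (δ * (n : ℝ) ^ (2 / 3 : ℝ) / N) ^ N * a (fun w => Ty (vl w₀) (vl w)) n ≤
            a (fun w => SumsC (Ty (vl w₀)) (fun _ => k) N (vl w)) (n + m * N))) ∧
    (∀ k : List V, FNAG k → ∀ w₀ : List Dir, SAP w₀ → ∃ M : ℕ, ∀ w, SAP w → KT (vl w₀) w →
      ¬ HasSummands k M w) ∧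
    (∃ w, SAP w ∧ FNAG (vl w)) := by
  refine ⟨fun R w hR hw => ⟨ct_low hR hw, ct_proj R w⟩, fun k hk => ?_, fun k hk w₀ hw₀ => ?_,
    ⟨_, fnag_tre⟩⟩
  · obtain ⟨R, L, v, hB⟩ := exists_blk hk
    refine ⟨R, hB.hR, fun Q hQ hc hex => ?_, fun hF w₀ hw₀ => main8 hw₀ hF hB⟩
    obtain ⟨w₁, h1, h2, h3⟩ := hex
    have hne : ∃ w, SAP w ∧ Q w := ⟨w₁, h1, h2⟩
    have hk' : Tp Q k := ⟨w₁, h1, h2, h3.symm⟩
    refine ⟨?_, fun Q' M h => ?_⟩
    · obtain ⟨δ, hδ, -, h4⟩ := main3 hQ hc hne hk' hB
      exact ⟨δ, hδ, h4.mono fun n hn => ⟨hn.2, hn.1⟩⟩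
    · obtain ⟨δ, hδ, h4⟩ := main5 hQ hc hne hk' hB h
      refine ⟨⟨δ, hδ, h4⟩, fun ε hε => ?_, fun A α g hA hg hF => ?_⟩
      · exact main7 hQ hc hne hδ (h4.mono fun n hn => hn.1) hε
      · exact main6 hQ hc hne hδ (h4.mono fun n hn => hn.2.1) hA hg hF
  · obtain ⟨M, hM⟩ := type_bound (Q := fun _ => True) ⟨fun _ _ _ _ _ h => h,
      fun _ _ _ _ _ h => h⟩ hw₀ trivial hk
    exact ⟨M, fun w hw hT => (hM w hw hT).2⟩

end Pool.Agent.Results.MP_aea6d5_co.ManySummands
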