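import Pool.Agent.Q78.UG.KnotEx
import Pool.Agent.Q78.UG.KnotUni
import Pool.Agent.Q78.UW.ExLaw2

/-!
# Lattice polygons of a class of knot types in a random domain: numbers and laws of the knot type at
all lengths from sparse lengths
-/

set_option autoImplicit false

namespace Pool.Agent.Results.MP_aea6d5_co.SparseTypeLaws

open Finset Filter Topology KN MeasureTheory
open scoped Classical

variable {Ω : Type} [MeasurableSpace Ω]

/-- random domains -/
def IsDomain (D : Ω → Set Z3) : Prop := ∀ p, MeasurableSet {ω | p ∈ D ω}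

/-- random classes of knot types contained in the class `Q` -/
def IsSub (Q : List Dir → Prop) (Q' : Ω → List Dir → Prop) : Prop :=
  (∀ ω, KClass (Q' ω)) ∧ (∀ ω w, Q' ω w → Q w) ∧ ∀ w, MeasurableSet {ω | Q' ω w}

/-- Mean number of closed self-avoiding words from `0` in `ℤ³` (polygons with a starting point `0`
and an orientation) with `n` steps, with knot type in the random class `Q`, all of whose vertices
lie in the random set `D`. -/
noncomputable def Z (ν : Measure Ω) (D : Ω → Set Z3) (Q : Ω → List Dir → Prop) (n : ℕ) : ℝ :=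
  ∫ ω, (((K (Q ω) n).filter (fun w => ∀ p ∈ path w, p ∈ D ω)).card : ℝ) ∂ν

/-- The mean number for the class `Q` and the length `2 j`, divided by the power of the growth rate
of the class. -/
noncomputable def Y (ν : Measure Ω) (D : Ω → Set Z3) (Q : List Dir → Prop) (j : ℕ) : ℝ :=
  Z ν D (fun _ => Q) (2 * j) / gr Q ^ (2 * j)

/-- The conditional probability, given that the random polygon through `0` with `2 j` edges and type
in `Q` lies in `D`, that its type is in `Q'` and that it lies in `D'`. -/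
noncomputable def Pr (ν : Measure Ω) (D : Ω → Set Z3) (Q : List Dir → Prop) (D' : Ω → Set Z3)
    (Q' : Ω → List Dir → Prop) (j : ℕ) : ℝ :=
  Z ν D' Q' (2 * j) / Z ν D (fun _ => Q) (2 * j)

/-- logarithms of normalisations, such as `β log n + a` -/
def IsSlow (ψ : ℕ → ℝ) : Prop :=
  ∃ B : ℝ, ∀ m n : ℕ, 1 ≤ m → m ≤ n → |ψ n - ψ m| ≤ B * (((n : ℝ) - m) / m)

/-- `S` meets `[n, n + δ √(n E n)]` for all large `n` -/
def Meets (S : Set ℕ) (δ : ℝ) (E : ℕ → ℝ) : Prop :=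
  ∀ᶠ n : ℕ in atTop, ∃ k ∈ S, n ≤ k ∧ (k : ℝ) ≤ n + δ * √(n * E n)

/-- Let `Q` be a class of knot types (for instance all knot types, or finitely many), `D` a random
subset of `ℤ³` (any law) and `S` a set of half-lengths. The numbers of polygons of class `Q` in `D`
and the conditional laws of (knot type, containment in smaller random sets) are determined at all
lengths by their behaviour at the half-lengths in `S`. -/
theorem result : (∀ β a : ℝ, IsSlow (fun n => β * Real.log n + a)) ∧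
    (∀ (Ω : Type) [MeasurableSpace Ω] (ν : Measure Ω) [IsProbabilityMeasure ν]
      (Q : List Dir → Prop) (n : ℕ),
      Z ν (fun _ => Set.univ) (fun _ => Q) n = 2 * n * pq Q n) ∧
    ∀ Q : List Dir → Prop, KClass Q → (∃ w, SAP w ∧ Q w) → ∃ C : ℝ, 0 < C ∧
    ∀ (Ω : Type) [MeasurableSpace Ω] (ν : Measure Ω) [IsProbabilityMeasure ν] (D : Ω → Set Z3),
      IsDomain D → ∀ S : Set ℕ,
      -- exponents
      (∀ β : ℝ, (∀ δ : ℝ, 0 < δ → Meets S δ (fun n => Real.log n)) →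
        (∀ᶠ j in atTop, j ∈ S → 0 < Y ν D Q j) →
        Tendsto (fun j : ℕ => Real.log (Y ν D Q j) / Real.log j) (atTop ⊓ 𝓟 S) (𝓝 β) →
        Tendsto (fun j : ℕ => Real.log (Y ν D Q j) / Real.log j) atTop (𝓝 β)) ∧
      -- asymptotic forms and limit laws of the knot type
      (∀ ψ : ℕ → ℝ, IsSlow ψ → (∀ δ : ℝ, 0 < δ → Meets S δ (fun _ => 1)) →
        Tendsto (fun j => Y ν D Q j / Real.exp (ψ j)) (atTop ⊓ 𝓟 S) (𝓝 1) →
        Tendsto (fun j => Y ν D Q j / Real.exp (ψ j)) atTop (𝓝 1) ∧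
        ∀ (D' : Ω → Set Z3) (Q' : Ω → List Dir → Prop), IsDomain D' → (∀ ω, D' ω ⊆ D ω) →
          IsSub Q Q' → ∀ ℓ : ℝ, Tendsto (Pr ν D Q D' Q') (atTop ⊓ 𝓟 S) (𝓝 ℓ) →
          Tendsto (Pr ν D Q D' Q') atTop (𝓝 ℓ)) ∧
      -- rates under logarithmic bounds
      (∀ τ δ : ℝ, 0 < τ → 0 < δ → Meets S δ (fun n => 1 + Real.log n) →
        (∀ᶠ j in atTop, j ∈ S → 0 < Y ν D Q j ∧ |Real.log (Y ν D Q j)| ≤ τ * (1 + Real.log j)) →
        ∀ᶠ j : ℕ in atTop, 0 < Y ν D Q j ∧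
          |Y ν D Q (j + 1) / Y ν D Q j - 1| ≤ C * √((1 + τ + δ ^ 2) * (1 + Real.log j) / j) ∧
          ∀ (D' : Ω → Set Z3) (Q' : Ω → List Dir → Prop), IsDomain D' → (∀ ω, D' ω ⊆ D ω) →
            IsSub Q Q' → |Pr ν D Q D' Q' (j + 1) - Pr ν D Q D' Q' j| ≤
              C * √((1 + τ + δ ^ 2) * (1 + Real.log j) / j)) ∧
      -- rates under sharp bounds
      (∀ ψ : ℕ → ℝ, IsSlow ψ → ∀ κ d : ℝ, 0 < d → Meets S d (fun _ => 1) →
        (∀ᶠ j in atTop, j ∈ S → 0 < Y ν D Q j ∧ |Real.log (Y ν D Q j) - ψ j| ≤ κ) →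
        ∃ C' : ℝ, ∀ᶠ j : ℕ in atTop, 0 < Y ν D Q j ∧ |Real.log (Y ν D Q j) - ψ j| ≤ C' ∧
          |Y ν D Q (j + 1) / Y ν D Q j - 1| ≤ C' / √j ∧
          ∀ (D' : Ω → Set Z3) (Q' : Ω → List Dir → Prop), IsDomain D' → (∀ ω, D' ω ⊆ D ω) →
            IsSub Q Q' → |Pr ν D Q D' Q' (j + 1) - Pr ν D Q D' Q' j| ≤ C' / √j) := by
  refine ⟨fun β a => Q78.Z3.slow_log β a, fun Ω _ ν _ Q n => ?_, fun Q hQ hne => ?_⟩
  · have h1 : Z ν (fun _ => Set.univ) (fun _ => Q) n = a Q n := Q78.UG.Kn.Z_univ ν Q n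
    rw [h1]
    rcases Nat.eq_zero_or_pos n with h | h
    · subst h
      have : K Q 0 = ∅ := by
        rw [Finset.eq_empty_iff_forall_notMem]
        intro w hw
        rw [mem_K] at hw
        have := hw.2.1.1
        omega
      unfold a
      rw [this, card_empty]
      simp
    · unfold pq
      have hn0 : (0 : ℝ) < n := by exact_mod_cast h
      field_simp
  obtain ⟨C, hC, h⟩ := Q78.UG.Kn.knot_ex Q hQ hne
  refine ⟨C, hC, ?_⟩
  intro Ω _ ν _ D hD S
  obtain ⟨a1, a2, a3, a4, a5⟩ := h Ω ν D hD S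
  refine ⟨fun β hS hp hl => a4 β hS hp hl, fun ψ hψ hS hl => ⟨a3 ψ hψ hS hl, ?_⟩, ?_, ?_⟩
  · intro D' Q' hD' hsub hQ' ℓ hlim
    obtain ⟨C', hC', h2⟩ := a5 ψ hψ 1 1 one_pos (hS 1 one_pos) (Q78.UW.Po.form_bound hl)
    refine Q78.UW.Ex.lim_gap hC' ?_ hS hlim
    filter_upwards [h2] with n hn
    exact hn.2.2 D' Q' hD' hsub hQ'
  · intro τ δ hτ hδ hS hk
    have h1 := a1 (fun n => 1 + Real.log n) (fun _ => 0) τ δ Q294.Sp1.err_log
      ⟨0, fun m n _ _ => by simp⟩ hτ hδ hS (by simpa only [sub_zero] using (show ∀ᶠ j : ℕ in atTop,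
        j ∈ S → 0 < Q78.UG.Kn.YR (gr Q) ν D (fun _ => Q) j ∧
          |Real.log (Q78.UG.Kn.YR (gr Q) ν D (fun _ => Q) j)| ≤ τ * (1 + Real.log j) from hk))
    filter_upwards [h1, a2 (fun n => 1 + Real.log n) τ δ Q294.Sp1.err_log hτ hδ hS hk]
      with j hj1 hj2
    exact ⟨hj1.1, hj2.1, hj2.2⟩
  · intro ψ hψ κ d hd hS hk
    obtain ⟨C1, hC1, h2⟩ := a5 ψ hψ κ d hd hS hk
    have h1 := a1 (fun _ => 1) ψ (|κ| + 1) d Q294.Sp1.err_one hψ (by positivity) hd hS (by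
      filter_upwards [hk] with n hn hnS
      obtain ⟨g1, g2⟩ := hn hnS
      refine ⟨g1, g2.trans ?_⟩
      rw [mul_one]
      linarith [le_abs_self κ])
    refine ⟨C1 + C * (|κ| + 1 + d ^ 2) * 1, ?_⟩
    filter_upwards [h1, h2] with j hj1 hj2
    have h3 : C1 / √(j : ℝ) ≤ (C1 + C * (|κ| + 1 + d ^ 2) * 1) / √j := by
      refine div_le_div_of_nonneg_right ?_ (Real.sqrt_nonneg _)
      have : 0 ≤ C * (|κ| + 1 + d ^ 2) * 1 := by positivity
      linarith
    refine ⟨hj1.1, hj1.2.trans (by linarith), hj2.2.1.trans h3, fun D' Q' hD' hsub hQ' =>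
      (hj2.2.2 D' Q' hD' hsub hQ').trans h3⟩

end Pool.Agent.Results.MP_aea6d5_co.SparseTypeLaws
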