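import Pool.Agent.Q78.UG.KnotUni

/-!
# The knot type of a uniform random polygon: laws at neighbouring lengths
-/

set_option autoImplicit false

namespace Pool.Agent.Results.MP_aea6d5_co.TypeLaws

open Finset Filter Topology KN MeasureTheory
open scoped Classical

/-- Mean number of closed self-avoiding words from `0` in `ℤ³` (polygons with a starting point `0`
and an orientation) with `n` steps and knot type in `Q`, all of whose vertices lie in the random
set `D`. -/
noncomputable def Z {Ω : Type} [MeasurableSpace Ω] (ν : Measure Ω) (D : Ω → Set Z3)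
    (Q : List Dir → Prop) (n : ℕ) : ℝ :=
  ∫ ω, (((K Q n).filter (fun w => ∀ p ∈ path w, p ∈ D ω)).card : ℝ) ∂ν

/-- The probability that the knot type of a uniform random polygon with `n` edges and knot type
in `Q` (with a starting point `0`) is in `Q'` and that the polygon lies in the independent random
set `D`. -/
noncomputable def Pr {Ω : Type} [MeasurableSpace Ω] (Q : List Dir → Prop) (n : ℕ) (ν : Measure Ω)
    (D : Ω → Set Z3) (Q' : List Dir → Prop) : ℝ := Z ν D Q' n / a Q n

/-- The error term `√((log n + log (μ ^ n / p_n)) / n)`; here `p_n = pq Q n` is the number of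
polygons with `n` edges and knot type in `Q`, and `μ = gr Q` their growth rate. -/
noncomputable def err (Q : List Dir → Prop) (n : ℕ) : ℝ :=
  √((Real.log n + Real.log (gr Q ^ n / pq Q n)) / n)

/-- The class of all knot types. -/
def All (_ : List Dir) : Prop := True

/-- Let `Q` be a class of knot types which is closed under connected sums (all knot types, the
unknot, ...). The laws of (knot type, containment in an independent random set) of the uniform
random polygon of class `Q` with `n` edges and of the one with `n + 2` edges differ by at most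
`C * err Q n`, uniformly in all subclasses and in all random sets. In particular the total
variation distance between the laws of the knot types at the lengths `n` and `n + 2` tends to `0`
(`n` even). -/
theorem result :
    (KClass All ∧ (∃ w, SAP w ∧ All w) ∧ CSum All) ∧
    ∀ Q : List Dir → Prop, KClass Q → (∃ w, SAP w ∧ Q w) → CSum Q →
    Tendsto (fun j : ℕ => err Q (2 * j)) atTop (𝓝 0) ∧
    ∃ (C : ℝ) (J : ℕ), 0 < C ∧ ∀ j : ℕ, J ≤ j → 0 < a Q (2 * j) ∧
      ∀ (Ω : Type) [MeasurableSpace Ω] (ν : Measure Ω) [IsProbabilityMeasure ν] (D : Ω → Set Z3),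
        (∀ p, MeasurableSet {ω | p ∈ D ω}) →
        ∀ Q' : List Dir → Prop, KClass Q' → (∀ w, Q' w → Q w) →
        |Pr Q (2 * j + 2) ν D Q' - Pr Q (2 * j) ν D Q'| ≤ C * err Q (2 * j) :=
  ⟨⟨⟨fun _ _ _ _ _ _ => trivial, fun _ _ _ _ _ _ => trivial⟩,
    ⟨sqw, c_sq.2.1, trivial⟩, fun _ _ _ _ _ _ => trivial⟩,
    fun Q hQ hne hc => Q78.UG.Kn.uniform Q hQ hne hc⟩

end Pool.Agent.Results.MP_aea6d5_co.TypeLaws
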